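import Pool.Agent.PX.Stmts
import Pool.Agent.Helper82_PX.Hit
import Pool.Agent.Helper26_RS.Main

set_option autoImplicit false

/-!
# Squad PXE (`MP_b2b50d_lc`): forms with bounded interaction and exponents in binary, statements

Every row is a `Prop`, to be proved as a theorem `xxx : XxxStmt` (or `(h : YyyStmt) → XxxStmt`) in
`Pool/Agent/HelperN_PXE/XXX.lean`, `import Pool.Agent.PXE.Stmts`, namespace `Pool.Agent.PXE.HN`.
Complete proofs in the docstrings.
-/

namespace Pool.Agent.PXE

open Polynomial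
open MvPolynomial (pderiv)
open Pool.Agent.PX (IsLo)
open Pool.Agent.PW (Ph Free)
open Pool.Agent.Helper12_FV (onl topp)
open Pool.Agent.UO (point)

/-! ## Block 1: factors of forms -/

/-- ROW EIS.  `α X^a + β Y^b + γ Z^c` is irreducible.

PROOF.  `δ = C (C β) * X ^ b + C (C γ * X ^ c)` in the factorial domain `K[X][X]` (`Y` is the outer
variable) has degree `b > 0`, so it has an irreducible, hence prime, factor `π`
(`WfDvdMonoid.exists_irreducible_factor`, `Irreducible.prime`).  `π ^ 2` does not divide `δ`: otherwise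
`π` divides `derivative δ = b C (C β) Y ^ (b - 1)`, so `π ∣ Y` (or `π ∣` a unit), so `π` is associated to
`Y` (`irreducible_X`), so `Y ∣ δ` and the coefficient `C γ * X ^ c` of `δ` in degree `0` is zero, a
contradiction.  `Polynomial.irreducible_of_eisenstein_criterion` with `P = Ideal.span {π}`: the leading
coefficient `C (C α)` is a unit, the coefficients in degrees `0 < n < a` are `0`, the one in degree `0` is
`δ`; the leading coefficient is a unit, so the polynomial is primitive.  80 lines. -/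
def EisStmt : Prop := ∀ (K : Type) [Field K] [CharZero K] (α β γ : K) (a b c : ℕ),
  α ≠ 0 → β ≠ 0 → γ ≠ 0 → 0 < a → 0 < b → 0 < c →
  Irreducible (C (C (C α)) * X ^ a + C (C (C β) * X ^ b + C (C γ * X ^ c)) : K[X][X][X])

/-- ROW IRF (from EIS).  `u(X) + v(Y) + w(Z)` is irreducible for nonconstant `u`, `v`, `w`.

PROOF.  `R = K[X][X][X]`, `ι : K → R` the constants, `F` the polynomial, `a`, `b`, `c` the degrees of `u`,
`v`, `w`, `w1 = b c`, `w2 = a c`, `w3 = a b`.  Ring homomorphism `σ : R → R[X]` (new variable `S`) with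
`X ↦ C X * S ^ w1`, `Y ↦ C (C X) * S ^ w2`, `Z ↦ C (C (C X)) * S ^ w3`, identity on `K` (three times
`eval₂RingHom`).  `σ F = (u.map ι).comp (C X * S ^ w1) + (v.map ι).comp (C (C X) * S ^ w2) +
(w.map ι).comp (C (C (C X)) * S ^ w3)`, the three terms have degree `a b c` and leading coefficients
`ι u_a * X ^ a`, `ι v_b * (C X) ^ b`, `ι w_c * (C (C X)) ^ c` (`natDegree_comp`, `leadingCoeff_comp`), so
the leading coefficient of `σ F` is the polynomial of EIS (not zero), which is irreducible.
Let `F = G H`: `leadingCoeff (σ G) * leadingCoeff (σ H)` is irreducible, so one of them, say the one of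
`σ G`, is a unit.  `ε : R → K`, `X, Y, Z ↦ 0`: `(σ G).map ε = C (ε G)` (check on generators;
`S ^ w1 ≠ 1`), so if `N = natDegree (σ G) ≥ 1` then `ε` of the coefficient `N` is `0`, but it is a unit.
So `σ G = C r`; `S ↦ 1` gives `r = G`, `S ↦ 0` gives `r = ι (ε G)`.  So `G` is a constant, not zero, a
unit.  `F` is not a unit: it has degree `a > 0`.  120 lines. -/
def IrfStmt : Prop := ∀ (K : Type) [Field K] [CharZero K] (u v w : K[X]),
  0 < u.natDegree → 0 < v.natDegree → 0 < w.natDegree →
  Irreducible (u.map ((C : K[X] →+* K[X][X]).comp C) + C (v.map C + C w) : K[X][X][X])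

/-- ROW TVB (from IRF).  If `x_i`, `x_j`, `x_l` occur in `f` and no two of them interact, then one of the
two factors of `f` is free of all three.

PROOF.  `K = FractionRing (MvPolynomial ℕ E)`, `ψ : MvPolynomial ℕ E → K[X][X][X]`, `x_i ↦ X`,
`x_j ↦ C X`, `x_l ↦ C (C X)`, `x_r ↦` the constant `x_r` for the other `r`.  For `a b c : K`, the
evaluation `ev a b c : K[X][X][X] → K` at `X = a`, `Y = b`, `Z = c`; `ev x_i x_j x_l (ψ p) = p`.
No monomial `m` of `f` contains two of `i`, `j`, `l`: if `m i ≠ 0 ≠ m j` then `m - single i 1` is a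
monomial of `∂_i f` (characteristic `0`, see `Helper82_PX/Cls.lean`, `og_isForm`) and contains `j`.
So `ψ` of each monomial of `f` is of the form `u.map (C.comp C) + C (v.map C + C w)`, and these form an
additive subgroup; so `ψ f = u.map (C.comp C) + C (v.map C + C w)`.  If `u` is constant then
`ev x_i x_j x_l (ψ f) = ev 0 x_j x_l (ψ f)`, i.e. `f = f|_(x_i = 0)` (`FractionRing` is injective), and
`i` does not occur in `f|_(x_i = 0)`, a contradiction; the same for `v`, `w`.  So `ψ f = ψ g * ψ h` is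
irreducible by IRF, say `ψ g` is a unit, i.e. a constant `κ` of `K` (`Polynomial.isUnit_iff` three times);
then `g = ev x_i x_j x_l (ψ g) = κ = ev 0 x_j x_l (ψ g) = g|_(x_i = 0)`, so `i` is not in `g.vars`, the
same for `j`, `l`.  130 lines. -/
def TvbStmt : Prop := ∀ (E : Type) [Field E] [CharZero E] (f g h : MvPolynomial ℕ E) (i j l : ℕ),
  i ≠ j → i ≠ l → j ≠ l → i ∈ f.vars → j ∈ f.vars → l ∈ f.vars →
  j ∉ (pderiv i f).vars → l ∉ (pderiv i f).vars → l ∉ (pderiv j f).vars → f = g * h →
  (i ∉ g.vars ∧ j ∉ g.vars ∧ l ∉ g.vars) ∨ (i ∉ h.vars ∧ j ∉ h.vars ∧ l ∉ h.vars)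

/-- ROW IRR (from TVB).  Factors of forms are forms.

PROOF.  Let `f = g h`.  `vars f = vars g ∪ vars h` (`mem_vars_iff_degreeOf_ne_zero`, `degreeOf_mul_eq`, as
in `cl_vars` of `Helper82_PX/Hit.lean`).  If `f` has at most `2 c + 2` variables then so has `g`, and
`vars (∂_i g) ⊆ vars g`.  Otherwise: for all `i`, `j` in `vars f` there is `l` in `vars f`, `l ≠ i, j`, not
in `vars (∂_i f)`, `vars (∂_j f)` (at most `2 c + 2` exceptions).  `j ∈ vars (∂_i f)` is symmetric
(`Helper48_PX/GAX.lean`).  (1) If `j ∉ vars (∂_i f)`, `j ≠ i`, then TVB for `i`, `j`, `l`: `i` and `j` are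
both not in `vars g` or both not in `vars h`.  (2) If `j ∈ vars (∂_i f)`: (1) for `i`, `l` and for `l`,
`j`: as `l` is in `vars g` or in `vars h`, but not in both, again `i` and `j` are both not in `vars g` or
both not in `vars h`.  So one of `vars g`, `vars h` is empty.  If `vars g = ∅` then `∂_i g = 0`.  If
`vars h = ∅` then `h = C e`, `∂_i f = C e * ∂_i g`, `vars (∂_i g) = vars (∂_i f)`.  100 lines. -/
def IrrStmt : Prop := ∀ (E : Type) [Field E] [CharZero E] (c : ℕ) (f g : MvPolynomial ℕ E),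
  f ≠ 0 → IsLo c f → g ∣ f → IsLo (2 * c + 2) g

/-! ## Block 2: coprimality on lines -/

/-- The substitution `x_s ↦ x_s + β_s X`. -/
noncomputable def psi {K : Type} [CommRing K] (β : ℕ → K) :
    MvPolynomial ℕ K →ₐ[K] (MvPolynomial ℕ K)[X] :=
  MvPolynomial.aeval fun s => C (MvPolynomial.X s) + C (MvPolynomial.C (β s)) * X

/-- ROW PSI.  The resultant on the generic line in the direction `β`.

PROOF.  (1) Copy `psi`, `tau`, `isRelPrime_psi` of `Helper12_FV/Res.lean` (there `K = ℤ` and the index type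
`Fin n`), `psi β a ≠ 0` (`tau` is a left inverse), `resultant_ne_zero_of_isRelPrime`.  (2) If
`psi β a` has degree `0`, `psi β a = C a'`, `a' ≠ 0`: `r = a'`, `u = 1`, `v = 0`.  Otherwise
`Polynomial.exists_mul_add_mul_eq_C_resultant`.  100 lines. -/
def PsiStmt : Prop := ∀ (K : Type) [Field K] (β : ℕ → K) (a b : MvPolynomial ℕ K), a ≠ 0 →
  IsRelPrime a b → resultant (psi β a) (psi β b) ≠ 0 ∧
    ∃ (r : MvPolynomial ℕ K) (u v : (MvPolynomial ℕ K)[X]), r ≠ 0 ∧
      u * psi β a + v * psi β b = C r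

/-- ROW ELX (from PSI).  Relatively prime polynomials have no common zero at a point with only one
special coordinate.

PROOF.  PSI (2) with `β = Pi.single z 1`: `u * psi β g + v * psi β h = C r`.  Apply
`(MvPolynomial ℕ E)[X] → Om`, `j` on the coefficients, `X ↦ e (X z) - j (X z)`
(`eval₂RingHom`): `psi β g ↦ e g` (check on generators), so `j r = 0`, a contradiction.  40 lines. -/
def ElxStmt : Prop := ∀ (E Om : Type) [Field E] [Field Om] [Algebra E Om]
  (g h : MvPolynomial ℕ E) (z : ℕ) (j e : MvPolynomial ℕ E →ₐ[E] Om), g ≠ 0 → IsRelPrime g h →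
  Function.Injective j → (∀ i, i ≠ z → e (MvPolynomial.X i) = j (MvPolynomial.X i)) →
  e g = 0 → e h = 0 → False

/-- ROW PTX.  Elimination of `x_z`, or a common zero with only one special coordinate.

PROOF.  `P = MvPolynomial ℕ D`, `L = FractionRing P`, `θ : P → P[X]`, `x_z ↦ X`, `x_i ↦ C x_i`.
`A`, `B` = the images of `θ a`, `θ b` in `L[X]`.  If `A`, `B` are not coprime then they have a common root
`ξ` in `Om = AlgebraicClosure L`
(`Polynomial.isCoprime_iff_aeval_ne_zero_of_isAlgClosed`); `j` = the inclusion, `e` = `j` on `D` and on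
all `x_i`, `i ≠ z`, `e x_z = ξ` (as an `E`-algebra homomorphism: `MvPolynomial.aeval` over `D`, restricted
to `E`, or `eval₂Hom` with a proof of `commutes'`).  If `A`, `B` are coprime: `U A + V B = 1` in `L[X]`,
multiply by a common denominator (`IsLocalization.integerNormalization` or
`Polynomial.exists_integral...`; or apply `exists_mul_add_mul_eq_C_resultant` to `θ a`, `θ b` if one of
them has positive degree, the resultant is not zero by `Polynomial.resultant_eq_zero_iff` over `L` and
`resultant_map_map`; if both have degree `0` then one of `a`, `b` is free of `x_z` and not zero):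
`u θ a + v θ b = C r`, `r ≠ 0` in `P`.  There is `d` in `E` with `r|_(x_z = d) ≠ 0` (otherwise `θ r` has
infinitely many roots `C d`, so `θ r = 0`, `r = 0`).  Apply `x_z ↦ d` to the coefficients
(`Polynomial.map`): `θ a`, `θ b` do not change (check on generators).  Then `X ↦ x_z`:
`u' a + v' b = r|_(x_z = d)`.  150 lines. -/
def PtxStmt : Prop := ∀ (E D : Type) [Field E] [CharZero E] [CommRing D] [IsDomain D]
  [Algebra E D] (a b : MvPolynomial ℕ D) (z : ℕ),
  (∃ r u v : MvPolynomial ℕ D, r ≠ 0 ∧ z ∉ r.vars ∧ r = u * a + v * b) ∨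
  ∃ (Om : Type) (_ : Field Om) (_ : Algebra E Om) (j e : MvPolynomial ℕ D →ₐ[E] Om),
    Function.Injective j ∧ (∀ d, e (MvPolynomial.C d) = j (MvPolynomial.C d)) ∧
    (∀ i, i ≠ z → e (MvPolynomial.X i) = j (MvPolynomial.X i)) ∧ e a = 0 ∧ e b = 0

/-- ROW CPN (from ELX).  Relatively prime forms have no common zero with only one special coordinate, if
`J` is chosen well.

PROOF.  Import `Pool.Agent.Helper82_PX.All`, `Pool.Agent.Helper22_PX.MAX` and cite
`Pool.Agent.PX.aPix : PixStmt`, `Pool.Agent.PX.aGax : GaxStmt`, `Pool.Agent.PX.H22.maxx : MaxStmt` (no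
hypotheses; statements in `PX/Stmts.lean`).  `s = 2 c + 1`, `Γ` for the list `[g, h]` (GAX (1)).
`N1 = q s^2 + 2 s^2`, `N2 = (q + N1) s^2 + s^2` (and `N2 ≥ N1`), `M = q + 2 N2`,
`m = (q + N1) s + 2 s` (all up to a harmless constant; take what you need).
Case A: `g` and `h` have less than `N2` variables.  `J = J1 ∪ g.vars ∪ h.vars`; `Ph ζ J g` is `g` with the
coefficients mapped to `D`; ELX for `j`, `e` composed with `MvPolynomial.map (algebraMap E D)`
(injective).
Case B: one of them, say `g` (the situation is symmetric), has at least `N2` variables: `J = J1`.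
Let `z`, `Om`, `j`, `e` be given, `e (Ph g) = e (Ph h) = 0`.
`IsPt ζ ![g] J ![z] j e`.  B1: `g`, `h` are linearly independent and every nonzero element of
their span has at least `N1` variables: PIX for `![g, h]` with `Y = nb Γ (nb Γ J)` gives a pivot set
`z'`, MAX with `f = ![g, h]`, `r = 2`, `T = J`: `2 ≤ 1`.
B2: otherwise there is a nonzero `f0 = κ g + κ' h` with less than `N1` variables (if `g`, `h` are linearly
dependent then `h` divides `g` up to a constant, so by `IsRelPrime` both are constants: but `g` has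
variables.)  `e (Ph f0) = 0`.  The span of `g` is `N2`-robust; PIX for `![g]` with
`Y = nb Γ (nb Γ (J ∪ f0.vars))`; MAX with `f = ![g]`, `r = 1 = ρ`, `T = J ∪ f0.vars`, `h := f0`:
`e (Ph f0) ≠ 0`.  150 lines.  STRONG. -/
def CpnStmt : Prop := ∀ c q : ℕ, ∃ M m : ℕ, ∀ (E D : Type) [Field E] [CharZero E] [CommRing D]
  [IsDomain D] [Algebra E D] (ζ : ℕ → D), Free E m ζ →
  ∀ (g h : MvPolynomial ℕ E) (J1 : Finset ℕ), IsLo c g → IsLo c h → g ≠ 0 → h ≠ 0 →
  IsRelPrime g h → J1.card ≤ q →
  ∃ J : Finset ℕ, J1 ⊆ J ∧ J.card ≤ M ∧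
    ∀ (z : ℕ) (Om : Type) [Field Om] [Algebra E Om] (j e : MvPolynomial ℕ D →ₐ[E] Om), z ∈ J →
      Function.Injective j → (∀ d, e (MvPolynomial.C d) = j (MvPolynomial.C d)) →
      (∀ i, i ≠ z → e (MvPolynomial.X i) = j (MvPolynomial.X i)) →
      e (Ph ζ J g) = 0 → e (Ph ζ J h) = 0 → False

/-- ROW COP (from CPN, PTX, PSI).  On the variables of `J` the two forms stay relatively prime, over the
field of fractions `K` of `D`, and their resultant on the line in the direction `β` is not zero.

PROOF.  `a`, `b` = the images of `Ph ζ J g`, `Ph ζ J h` in `MvPolynomial ℕ K`; `Ph ζ J g ≠ 0`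
(`Pool.Agent.PW.H82.ph_ne` with `og`: all monomials of `g` contain at most `c + 1` variables,
`Helper82_PX/Cls.lean`, `og_isForm`; so take `m ≥ c + 1`).  `IsRelPrime a b`: let `d ∣ a`, `d ∣ b`.  For
each `z ∈ J`, PTX and CPN give `r ≠ 0`, `z ∉ r.vars`, `r = u Ph g + v Ph h`; the image of `r` is divisible
by `d`, so `z ∉ d.vars`.  For `z ∉ J`: `z ∉ (Ph ζ J g).vars`, so `z ∉ a.vars`, and `d ∣ a`, `a ≠ 0`:
`z ∉ d.vars` (degrees in `x_z` are additive, `degreeOf_mul_eq`).  So `d` is a constant, not zero, a unit.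
PSI (1).  80 lines. -/
def CopStmt : Prop := ∀ c q : ℕ, ∃ M m : ℕ, ∀ (E D K : Type) [Field E] [CharZero E] [CommRing D]
  [IsDomain D] [Algebra E D] [Field K] [Algebra D K] [IsFractionRing D K] (ζ : ℕ → D),
  Free E m ζ → ∀ (g h : MvPolynomial ℕ E) (J1 : Finset ℕ), IsLo c g → IsLo c h → g ≠ 0 → h ≠ 0 →
  IsRelPrime g h → J1.card ≤ q →
  ∃ J : Finset ℕ, J1 ⊆ J ∧ J.card ≤ M ∧ ∀ β : ℕ → K,
    resultant (psi β (MvPolynomial.map (algebraMap D K) (Ph ζ J g)))
      (psi β (MvPolynomial.map (algebraMap D K) (Ph ζ J h))) ≠ 0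

/-- ROW RPQ.  Relatively prime over `ℤ` implies relatively prime over `ℚ` (Gauss).

PROOF.  `F` = the image of `f` in `MvPolynomial ℕ ℚ`, similarly `G`.  Suppose `IsRelPrime F G` fails; then
there is an irreducible `p` dividing both (`F ≠ 0`; `UniqueFactorizationMonoid`,
`WfDvdMonoid.isRelPrime_of_no_irreducible_factors`).  `p.vars ⊆ F.vars ⊆` the range of `Fin.val`, so `p`
comes from `MvPolynomial (Fin n) ℚ` (`MvPolynomial.exists_rename_eq_of_vars_subset_range`), and some
multiple `κ p` comes from a `d` in `MvPolynomial (Fin n) ℤ` which is divisible by no prime number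
(divide by the gcd of the coefficients).  `N • f = d * u` with `N` a positive integer and `u` over `ℤ`.
For each prime factor `q` of `N`: `C q` is a prime element of `MvPolynomial (Fin n) ℤ`
(`MvPolynomial.prime_C_iff`) which does not divide `d`, so it divides `u`; so `d ∣ f` by induction on
`N`.  The same for `g`.  So `d` is a unit, a constant, and so is `p`, a contradiction.  120 lines. -/
def RpqStmt : Prop := ∀ (n : ℕ) (f g : MvPolynomial (Fin n) ℤ), f ≠ 0 → IsRelPrime f g →
  IsRelPrime (MvPolynomial.rename Fin.val (MvPolynomial.map (Int.castRingHom ℚ) f) :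
      MvPolynomial ℕ ℚ)
    (MvPolynomial.rename Fin.val (MvPolynomial.map (Int.castRingHom ℚ) g))

/-- ROW DST.  The parameters can be chosen in `ℤ`.

PROOF.  `S = MvPolynomial ((Fin t1 ⊕ Fin t1) ⊕ (Fin t2 ⊕ Fin t2)) ℤ`, `Rg` = the resultant for the
variables as parameters.  Its image under `S → R` (variables to the given parameters) is the given
resultant (`resultant_map_map`, `Helper12_FV.map_onl`, `point_map` in `Helper26_RS` / `UO`), so
`Rg ≠ 0`; `MvPolynomial.funext` over the infinite domain `ℤ` gives integers at which it is not zero, and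
its value is the resultant for these parameters.  50 lines. -/
def DstStmt : Prop := ∀ (n t1 t2 : ℕ) (f g : MvPolynomial (Fin n) ℤ) (R : Type) [CommRing R]
  [IsDomain R] (w1 z1 : Fin t1 → R) (w2 z2 : Fin t2 → R),
  resultant (onl (fun s : Fin n => point n w2 z2 (s : ℕ)) (fun s : Fin n => point n w1 z1 (s : ℕ)) f)
    (onl (fun s : Fin n => point n w2 z2 (s : ℕ)) (fun s : Fin n => point n w1 z1 (s : ℕ)) g)
    f.totalDegree g.totalDegree ≠ 0 →
  ∃ (w1 z1 : Fin t1 → ℤ) (w2 z2 : Fin t2 → ℤ),
    resultant (onl (fun s : Fin n => point n w2 z2 (s : ℕ))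
        (fun s : Fin n => point n w1 z1 (s : ℕ)) f)
      (onl (fun s : Fin n => point n w2 z2 (s : ℕ)) (fun s : Fin n => point n w1 z1 (s : ℕ)) g)
      f.totalDegree g.totalDegree ≠ 0

/-- ROW RES (from COP, RPQ, DST).  The resultant of two relatively prime forms on the lines of the
generator.

PROOF.  `F`, `G` = the images of `f`, `g` in `MvPolynomial ℕ ℚ` (as in RPQ), `IsLo c F`.
Let `s` be a monomial of `topp f`: it has at most `c + 1` variables (`og_isForm`); similarly for `g`;
`J1` = the indices of the variables of both (in `ℕ`), `q = 2 c + 2`.  `(M, m)` from COP, `m' = m`,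
`D = MvPolynomial (Fin m' ⊕ Fin m' ⊕ ℕ) ℚ`, `ζ = Pool.Agent.PW.genZ ℚ m' n`
(`Pool.Agent.PW.aGnf ℚ m' n m`), `K = FractionRing D`, `J` from COP.  The polynomials
`(topp f)|_(x_s = 0, s ∉ J)` and `(topp g)|_..` are not zero, so there are integers `β_s` (`s ∈ J`,
`β_s = 0` for `s ∉ J`) at which they are not zero.  In `R = FractionRing (MvPolynomial ℕ K)`:
`RS.H25.fre` (see `Helper82_PX/Hit.lean`) gives parameters `w2`, `z2` (`t2 ≥ m' + M`) of the point
`x_i` for `i ∈ J`, `ζ_i` for `i ∉ J`, and `w1`, `z1` (`t1 ≥ M`) of the point `β`.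
`onl P Q f` is the image of `psi β (map (Ph ζ J F))` (check on generators), and its degree is
`f.totalDegree` (`natDegree_onl_le`, `coeff_onl`: the coefficient of degree `f.totalDegree` is
`topp f (β) ≠ 0`), so the resultant is the image of the one of COP, not zero.  DST.  150 lines.
STRONG. -/
def ResStmt : Prop := ∀ c : ℕ, ∃ T1 T2 : ℕ, ∀ (t1 t2 n : ℕ) (f g : MvPolynomial (Fin n) ℤ),
  T1 ≤ t1 → T2 ≤ t2 → (∀ i, (pderiv i f).vars.card ≤ c) → (∀ i, (pderiv i g).vars.card ≤ c) →
  1 ≤ f.totalDegree → 1 ≤ g.totalDegree → IsRelPrime f g →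
  ∃ (w1 z1 : Fin t1 → ℤ) (w2 z2 : Fin t2 → ℤ),
    resultant (onl (fun s : Fin n => point n w2 z2 (s : ℕ))
        (fun s : Fin n => point n w1 z1 (s : ℕ)) f)
      (onl (fun s : Fin n => point n w2 z2 (s : ℕ)) (fun s : Fin n => point n w1 z1 (s : ℕ)) g)
      f.totalDegree g.totalDegree ≠ 0

end Pool.Agent.PXE
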